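import Mathlib
import Pool.Agent.H112R2.FinalGap

set_option autoImplicit false

/-!
# Freiman's theorem with polynomial bounds for products of sets of bounded doubling
-/

namespace Pool.Agent.X37.PS

open Finset
open scoped Pointwise

/-- `2 - 1/|A| ≤ |A + A| / |A|` -/
lemma doubling_ge {G : Type*} [AddCommGroup G] [DecidableEq G]
    (htf : ∀ (n : ℕ) (x : G), n ≠ 0 → n • x = 0 → x = 0) {A : Finset G} (hA : 2 ≤ A.card) :
    3 / 2 * (A.card : ℝ) ≤ ((A + A).card : ℝ) := by
  have hne : A.Nonempty := Finset.card_pos.1 (by omega)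
  have : IsAddTorsionFree G := ⟨fun n hn a b hab => by
    have h1 : n • (a - b) = 0 := by
      have h2 : n • a = n • b := hab
      rw [smul_sub, h2, sub_self]
    exact sub_eq_zero.1 (htf n _ hn h1)⟩
  have h := cauchy_davenport_of_isAddTorsionFree hne hne
  have h1 : 2 * A.card ≤ (A + A).card + 1 := by omega
  have h2 : (2 : ℝ) * A.card ≤ (A + A).card + 1 := by exact_mod_cast h1
  have h3 : (2 : ℝ) ≤ A.card := by exact_mod_cast hA
  linarith

/-- the exponent -/
noncomputable def ex (K : ℝ) : ℝ := 51000 * (1 + Real.log (1 + Real.log (2 * K)))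

lemma log_two_ge {K : ℝ} (hK : 1 ≤ K) : 0 ≤ Real.log (2 * K) := Real.log_nonneg (by linarith)

lemma ex_mono {K L : ℝ} (hK : 1 ≤ K) (h : K ≤ L) : ex K ≤ ex L := by
  unfold ex
  have h1 : Real.log (2 * K) ≤ Real.log (2 * L) := Real.log_le_log (by linarith) (by linarith)
  have h2 := log_two_ge hK
  have h3 : Real.log (1 + Real.log (2 * K)) ≤ Real.log (1 + Real.log (2 * L)) :=
    Real.log_le_log (by linarith) (by linarith)
  linarith

lemma ex_nonneg {K : ℝ} (hK : 1 ≤ K) : 0 ≤ ex K := by
  unfold ex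
  have h2 := log_two_ge hK
  have h3 : 0 ≤ Real.log (1 + Real.log (2 * K)) := Real.log_nonneg (by linarith)
  linarith

/-- one factor -/
theorem factor {G : Type*} [AddCommGroup G] [DecidableEq G]
    (htf : ∀ (n : ℕ) (x : G), n ≠ 0 → n • x = 0 → x = 0) {A : Finset G} (hA : A.Nonempty) {k : ℝ}
    (hk1 : 1 ≤ k) (hk : ((A + A).card : ℝ) = k * A.card) :
    ∃ (d : ℕ) (v : Fin d → G) (N : Fin d → ℕ) (T : Finset G),
      (d : ℝ) ≤ 900 * Real.log k ∧ (∀ i, 1 ≤ N i) ∧ ∏ i, N i ≤ A.card ∧
      (T.card : ℝ) ≤ k ^ ex k ∧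
      ∀ a ∈ A, ∃ t ∈ T, ∃ n : Fin d → ℕ, (∀ i, n i < N i) ∧ a = t + ∑ i, n i • v i := by
  have hlog : 0 ≤ Real.log k := Real.log_nonneg hk1
  rcases Nat.lt_or_ge A.card 2 with h | h
  · obtain ⟨a, ha⟩ := Finset.card_eq_one.1 (by have := hA.card_pos; omega : A.card = 1)
    refine ⟨0, fun i => i.elim0, fun i => i.elim0, {a}, by simpa using hlog, fun i => i.elim0, ?_, ?_, ?_⟩
    · simp [ha]
    · rw [Finset.card_singleton, Nat.cast_one]
      exact Real.one_le_rpow hk1 (ex_nonneg hk1)
    · intro b hb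
      rw [ha, Finset.mem_singleton] at hb
      exact ⟨a, Finset.mem_singleton_self a, fun i => i.elim0, fun i => i.elim0, by simp [hb]⟩
  · have hk32 : 3 / 2 ≤ k := by
      have h1 := doubling_ge htf h
      rw [hk] at h1
      have h2 : (0 : ℝ) < A.card := by
        have : 0 < A.card := by omega
        exact_mod_cast this
      exact le_of_mul_le_mul_right h1 h2
    have hk0 : 0 < k := by linarith
    have h2k : 2 * k ≤ k ^ (3 : ℕ) := by nlinarith [sq_nonneg (k - 3 / 2), mul_pos hk0 hk0]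
    have h2k1 : 1 ≤ 2 * k := by linarith
    obtain ⟨d, v, N, T, hd, hN, -, hvol, hT, hcov⟩ := H112.near_pfr_gap' htf hA hk.le
    have hlog2 : Real.log (2 * k) ≤ 3 * Real.log k := by
      have h1 := Real.log_le_log (by linarith) h2k
      rwa [Real.log_pow, Nat.cast_ofNat] at h1
    refine ⟨d, v, N, T, by linarith, hN, hvol, hT.trans ?_, hcov⟩
    set e : ℝ := 17000 * (1 + Real.log (1 + Real.log (2 * k))) with he
    have he0 : 0 ≤ e := by
      have h2 := log_two_ge hk1
      have h3 : 0 ≤ Real.log (1 + Real.log (2 * k)) := Real.log_nonneg (by linarith)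
      positivity
    have he3 : ex k = 3 * e := by
      unfold ex
      rw [he]
      ring
    calc (2 * k) ^ e ≤ (k ^ (3 : ℕ)) ^ e := Real.rpow_le_rpow (by linarith) h2k he0
      _ = k ^ ex k := by
          rw [he3, ← Real.rpow_natCast, ← Real.rpow_mul hk0.le]
          norm_num

/-- **Products.** -/
theorem product {ι : Type*} [Fintype ι] [DecidableEq ι] {G : ι → Type*} [∀ i, AddCommGroup (G i)]
    [∀ i, DecidableEq (G i)] {Z : Type*} [AddCommGroup Z] [DecidableEq Z]
    (htf : ∀ (i : ι) (n : ℕ) (x : G i), n ≠ 0 → n • x = 0 → x = 0) (A : ∀ i, Finset (G i))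
    (hA : ∀ i, (A i).Nonempty) {K₀ : ℝ} (hK₀1 : 1 ≤ K₀) (hK₀ : ∀ i, ((A i + A i).card : ℝ) ≤ K₀ * (A i).card)
    (π : (∀ i, G i) →+ Z) (c : Z)
    (hπ : Set.InjOn π (↑(Fintype.piFinset A + Fintype.piFinset A) : Set (∀ i, G i)))
    (B : Finset Z) (hB : B.Nonempty) (hBS : B ⊆ (Fintype.piFinset A).image fun x => c + π x) {K : ℝ}
    (hK : ((((Fintype.piFinset A).image fun x => c + π x) +
      ((Fintype.piFinset A).image fun x => c + π x)).card : ℝ) ≤ K * B.card) :
    ∃ (d : ℕ) (v : Fin d → Z) (N : Fin d → ℕ) (T : Finset Z),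
      (d : ℝ) ≤ 900 * Real.log K ∧ (∀ i, 1 ≤ N i) ∧ ((∏ i, N i : ℕ) : ℝ) ≤ K * B.card ∧
      (T.card : ℝ) ≤ K ^ ex K₀ ∧
      ∀ b ∈ B, ∃ t ∈ T, ∃ n : Fin d → ℕ, (∀ i, n i < N i) ∧ b = t + ∑ i, n i • v i := by
  classical
  set P : Finset (∀ i, G i) := Fintype.piFinset A with hP
  set S : Finset Z := P.image fun x => c + π x with hS
  -- the doublings of the factors
  have hcardpos : ∀ i, (0 : ℝ) < (A i).card := fun i => by exact_mod_cast (hA i).card_pos
  set k : ι → ℝ := fun i => ((A i + A i).card : ℝ) / (A i).card with hk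
  have hk1 : ∀ i, 1 ≤ k i := by
    intro i
    rw [hk]
    simp only
    rw [le_div_iff₀ (hcardpos i), one_mul]
    exact_mod_cast Finset.card_le_card_add_right (hA i)
  have hkK : ∀ i, k i ≤ K₀ := by
    intro i
    rw [hk]
    simp only
    rw [div_le_iff₀ (hcardpos i)]
    exact hK₀ i
  have hkeq : ∀ i, ((A i + A i).card : ℝ) = k i * (A i).card := by
    intro i
    rw [hk]
    simp only
    rw [div_mul_cancel₀ _ (hcardpos i).ne']
  choose d v N T hd hN hvol hT hcov using fun i => factor (htf i) (hA i) (hk1 i) (hkeq i)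
  -- the product of the doublings
  have hPS : (P + P).card = ∏ i, (A i + A i).card := by
    rw [hP, ← Fintype.piFinset_add, Fintype.card_piFinset]
  have hSS : (S + S).card = (P + P).card := by
    have e : S + S = (P + P).image (fun x => (c + c) + π x) := by
      ext z
      simp only [hS, Finset.mem_add, Finset.mem_image]
      constructor
      · rintro ⟨_, ⟨x, hx, rfl⟩, _, ⟨y, hy, rfl⟩, rfl⟩
        exact ⟨x + y, ⟨x, hx, y, hy, rfl⟩, by rw [map_add]; abel⟩
      · rintro ⟨_, ⟨x, hx, y, hy, rfl⟩, rfl⟩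
        exact ⟨c + π x, ⟨x, hx, rfl⟩, c + π y, ⟨y, hy, rfl⟩, by rw [map_add]; abel⟩
    rw [e, Finset.card_image_of_injOn]
    intro x hx y hy hxy
    exact hπ hx hy (add_left_cancel hxy)
  have hBP : B.card ≤ P.card := (Finset.card_le_card hBS).trans Finset.card_image_le
  have hBPR : (B.card : ℝ) ≤ P.card := Nat.cast_le.2 hBP
  have hBpos : (0 : ℝ) < B.card := by exact_mod_cast hB.card_pos
  have hK0 : 0 ≤ K := by
    have h1 : (0 : ℝ) ≤ K * B.card := le_trans (Nat.cast_nonneg _) hK
    exact nonneg_of_mul_nonneg_left h1 hBpos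
  have hprodk : ∏ i, k i ≤ K := by
    have h1 : (∏ i, k i) * P.card = ((P + P).card : ℝ) := by
      rw [hPS, hP, Fintype.card_piFinset]
      push_cast
      rw [← Finset.prod_mul_distrib]
      exact Finset.prod_congr rfl fun i _ => (hkeq i).symm
    have h2 : (∏ i, k i) * P.card ≤ K * P.card := by
      rw [h1, ← hSS]
      exact hK.trans (mul_le_mul_of_nonneg_left hBPR hK0)
    have h3 : (0 : ℝ) < P.card := lt_of_lt_of_le hBpos hBPR
    exact le_of_mul_le_mul_right h2 h3
  have hprod1 : 1 ≤ ∏ i, k i := by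
    calc (1 : ℝ) = ∏ _i : ι, (1 : ℝ) := by rw [Finset.prod_const_one]
      _ ≤ _ := Finset.prod_le_prod (fun _ _ => zero_le_one) fun i _ => hk1 i
  have hK1 : 1 ≤ K := hprod1.trans hprodk
  -- the index set
  set σ := Σ i, Fin (d i) with hσ
  set e : Fin (Fintype.card σ) ≃ σ := (Fintype.equivFin σ).symm with he
  refine ⟨Fintype.card σ, fun j => π (Pi.single (e j).1 (v (e j).1 (e j).2)),
    fun j => N (e j).1 (e j).2, (Fintype.piFinset T).image fun t => c + π t, ?_, ?_, ?_, ?_, ?_⟩
  · have h0 : Fintype.card (Σ i, Fin (d i)) = ∑ i, d i := by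
      rw [Fintype.card_sigma]
      simp
    have h1 : (Fintype.card σ : ℝ) = ∑ i, (d i : ℝ) := by exact_mod_cast h0
    rw [h1]
    calc ∑ i, (d i : ℝ) ≤ ∑ i, 900 * Real.log (k i) := Finset.sum_le_sum fun i _ => hd i
      _ = 900 * Real.log (∏ i, k i) := by
          rw [← Finset.mul_sum, Real.log_prod (fun i _ => by have := hk1 i; linarith)]
      _ ≤ 900 * Real.log K := by
          apply mul_le_mul_of_nonneg_left _ (by norm_num)
          exact Real.log_le_log (by linarith) hprodk
  · intro j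
    exact hN _ _
  · have h1 : ∏ j, N (e j).1 (e j).2 = ∏ i, ∏ l, N i l := by
      rw [e.prod_comp (fun s : σ => N s.1 s.2), Fintype.prod_sigma]
    have h2 : ∏ i, ∏ l, N i l ≤ P.card := by
      rw [hP, Fintype.card_piFinset]
      exact Finset.prod_le_prod' fun i _ => hvol i
    have h3 : (P.card : ℝ) ≤ K * B.card := by
      refine le_trans ?_ hK
      rw [hSS]
      have hPne : P.Nonempty := by
        rw [hP, Fintype.piFinset_nonempty]
        exact hA
      exact Nat.cast_le.2 (Finset.card_le_card_add_right hPne)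
    rw [h1]
    exact le_trans (Nat.cast_le.2 h2) h3
  · have h1 : (((Fintype.piFinset T).image fun t => c + π t).card : ℝ) ≤ ∏ i, ((T i).card : ℝ) := by
      have : ((Fintype.piFinset T).image fun t => c + π t).card ≤ ∏ i, (T i).card := by
        rw [← Fintype.card_piFinset]
        exact Finset.card_image_le
      exact_mod_cast this
    refine h1.trans ?_
    calc ∏ i, ((T i).card : ℝ) ≤ ∏ i, k i ^ ex K₀ := by
          apply Finset.prod_le_prod (fun i _ => Nat.cast_nonneg _)
          intro i _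
          exact (hT i).trans (Real.rpow_le_rpow_of_exponent_le (hk1 i) (ex_mono (hk1 i) (hkK i)))
      _ = (∏ i, k i) ^ ex K₀ :=
          Real.finsetProd_rpow _ _ (fun i _ => by have := hk1 i; linarith) _
      _ ≤ K ^ ex K₀ := Real.rpow_le_rpow (by linarith) hprodk (ex_nonneg hK₀1)
  · intro b hb
    obtain ⟨x, hx, rfl⟩ := Finset.mem_image.1 (hBS hb)
    rw [hP, Fintype.mem_piFinset] at hx
    choose t ht n hn hxe using fun i => hcov i (x i) (hx i)
    refine ⟨c + π t, Finset.mem_image.2 ⟨t, Fintype.mem_piFinset.2 ht, rfl⟩,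
      fun j => n (e j).1 (e j).2, fun j => hn _ _, ?_⟩
    have h1 : ∑ j, n (e j).1 (e j).2 • π (Pi.single (e j).1 (v (e j).1 (e j).2))
        = ∑ i, ∑ l, n i l • π (Pi.single i (v i l)) := by
      rw [e.sum_comp (fun s : σ => n s.1 s.2 • π (Pi.single s.1 (v s.1 s.2))), Fintype.sum_sigma]
    have h2 : x = t + ∑ i, ∑ l, n i l • (Pi.single i (v i l) : ∀ i, G i) := by
      funext i
      rw [hxe i, Pi.add_apply, Finset.sum_apply]
      congr 1
      rw [Finset.sum_eq_single i]
      · rw [Finset.sum_apply]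
        apply Finset.sum_congr rfl
        intro l _
        rw [Pi.smul_apply, Pi.single_eq_same]
      · intro i' _ hi'
        rw [Finset.sum_apply]
        apply Finset.sum_eq_zero
        intro l _
        rw [Pi.smul_apply, Pi.single_eq_of_ne (Ne.symm hi'), smul_zero]
      · intro h
        exact absurd (Finset.mem_univ i) h
    rw [h1]
    conv_lhs => rw [h2]
    rw [map_add, map_sum, add_assoc]
    congr 2
    apply Finset.sum_congr rfl
    intro i _
    rw [map_sum]
    apply Finset.sum_congr rfl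
    intro l _
    rw [map_nsmul]

end Pool.Agent.X37.PS
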