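import Mathlib
import Pool.Agent.X37.PS.Prod
import Pool.Agent.X47.DS4

set_option autoImplicit false

/-!
# Closure of the conclusion of the polynomial Freiman–Ruzsa conjecture under products
-/

namespace Pool.Agent.X37.PS

open Finset
open scoped Pointwise

/-- the doubling constant -/
noncomputable def kap {G : Type*} [AddCommGroup G] [DecidableEq G] (A : Finset G) : ℝ :=
  ((A + A).card : ℝ) / A.card

/-- the conclusion with exponent `C` -/
def Good {G : Type*} [AddCommGroup G] [DecidableEq G] (C : ℝ) (A : Finset G) : Prop :=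
  A.Nonempty ∧ ∃ (d : ℕ) (v : Fin d → G) (N : Fin d → ℕ) (T : Finset G),
    (d : ℝ) ≤ C * Real.log (kap A) ∧ (∀ i, 1 ≤ N i) ∧ ((∏ i, N i : ℕ) : ℝ) ≤ kap A ^ C * A.card ∧
    (T.card : ℝ) ≤ kap A ^ C ∧
    ∀ a ∈ A, ∃ t ∈ T, ∃ n : Fin d → ℕ, (∀ i, n i < N i) ∧ a = t + ∑ i, n i • v i

lemma card_pos_real {G : Type*} {A : Finset G} (hA : A.Nonempty) : (0 : ℝ) < A.card := by
  exact_mod_cast hA.card_pos

lemma kap_ge_one {G : Type*} [AddCommGroup G] [DecidableEq G] {A : Finset G} (hA : A.Nonempty) :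
    1 ≤ kap A := by
  unfold kap
  rw [le_div_iff₀ (card_pos_real hA), one_mul]
  exact_mod_cast Finset.card_le_card_add_right hA

lemma kap_eq {G : Type*} [AddCommGroup G] [DecidableEq G] {A : Finset G} (hA : A.Nonempty) :
    ((A + A).card : ℝ) = kap A * A.card := by
  unfold kap
  rw [div_mul_cancel₀ _ (card_pos_real hA).ne']

lemma Good.mono {G : Type*} [AddCommGroup G] [DecidableEq G] {C C' : ℝ} {A : Finset G}
    (h : Good C A) (hC : C ≤ C') : Good C' A := by
  obtain ⟨hA, d, v, N, T, h1, h2, h3, h4, h5⟩ := h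
  have hk := kap_ge_one hA
  have hp : kap A ^ C ≤ kap A ^ C' := Real.rpow_le_rpow_of_exponent_le hk hC
  refine ⟨hA, d, v, N, T, h1.trans (mul_le_mul_of_nonneg_right hC (Real.log_nonneg hk)), h2,
    h3.trans (mul_le_mul_of_nonneg_right hp (Nat.cast_nonneg _)), h4.trans hp, h5⟩

/-- bounded doubling in torsion-free groups -/
theorem good_of_doubling {G : Type*} [AddCommGroup G] [DecidableEq G]
    (htf : ∀ (n : ℕ) (x : G), n ≠ 0 → n • x = 0 → x = 0) {A : Finset G} (hA : A.Nonempty)
    {K₀ : ℝ} (hK₀ : ((A + A).card : ℝ) ≤ K₀ * A.card) : Good (ex K₀) A := by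
  have hk := kap_ge_one hA
  have hkK : kap A ≤ K₀ := by
    unfold kap
    rwa [div_le_iff₀ (card_pos_real hA)]
  obtain ⟨d, v, N, T, h1, h2, h3, h4, h5⟩ := factor htf hA hk (kap_eq hA)
  have hex := ex_mono hk hkK
  have hex1 := ex_nonneg hk
  have h900 : 900 ≤ ex K₀ := by
    unfold ex
    have hK1 : 1 ≤ K₀ := hk.trans hkK
    have h2 := log_two_ge hK1
    have h3 : 0 ≤ Real.log (1 + Real.log (2 * K₀)) := Real.log_nonneg (by linarith)
    linarith
  refine ⟨hA, d, v, N, T, h1.trans (mul_le_mul_of_nonneg_right h900 (Real.log_nonneg hk)), h2, ?_,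
    h4.trans (Real.rpow_le_rpow_of_exponent_le hk hex), h5⟩
  have h6 : (1 : ℝ) ≤ kap A ^ ex K₀ := Real.one_le_rpow hk (hex1.trans hex)
  calc ((∏ i, N i : ℕ) : ℝ) ≤ A.card := Nat.cast_le.2 h3
    _ ≤ _ := le_mul_of_one_le_left (Nat.cast_nonneg _) h6

/-- homomorphic images of down-sets of any dimension -/
theorem good_of_down {G : Type*} [AddCommGroup G] [DecidableEq G] (n : ℕ)
    (D : Finset (Fin n → ℕ)) (hD : ∀ x ∈ D, ∀ y, y ≤ x → y ∈ D) (hne : D.Nonempty)
    (θ : (Fin n → ℤ) →+ G) (g : G)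
    (hθ : Set.InjOn (fun x => θ (Pool.Agent.X47.DS.cst x)) (D + D : Finset (Fin n → ℕ)))
    {A : Finset G} (hA : A = D.image (fun x => g + θ (Pool.Agent.X47.DS.cst x))) : Good 13 A := by
  have hAne : A.Nonempty := by
    rw [hA]
    exact hne.image _
  have hk := kap_ge_one hAne
  have hk0 : 0 < kap A := by linarith
  obtain ⟨r, a, v, N, T, h1, h2, h3, h4, h5, h6⟩ :=
    Pool.Agent.X47.DS.pfr_prog n D hD hne θ g hθ (kap A) A hA (kap_eq hAne).le
  have hpos : ∀ i, 1 ≤ N i := by
    have h7 : (Pool.Agent.X47.DS.prog a v N).ncard ≠ 0 := by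
      intro h0
      rw [h0, Nat.cast_zero, mul_zero] at h4
      have := card_pos_real hAne
      linarith
    rw [h2] at h7
    intro i
    exact Nat.one_le_iff_ne_zero.2 (Finset.prod_ne_zero_iff.1 h7 i (Finset.mem_univ i))
  refine ⟨hAne, r, v, fun i => 2 * N i - 1, T.image (fun t => t - ∑ i, (N i - 1) • v i), h1,
    fun i => by
      have := hpos i
      show 1 ≤ 2 * N i - 1
      omega, ?_, ?_, ?_⟩
  · -- volume
    have h8 : (∏ i, (2 * N i - 1) : ℕ) ≤ 2 ^ r * ∏ i, N i := by
      calc (∏ i, (2 * N i - 1) : ℕ) ≤ ∏ i, (2 * N i) :=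
            Finset.prod_le_prod' fun i _ => Nat.sub_le _ _
        _ = 2 ^ r * ∏ i, N i := by
            rw [Finset.prod_mul_distrib, Finset.prod_const, Finset.card_univ, Fintype.card_fin]
    have h9 : ∏ i, N i ≤ A.card := by
      rw [← h2]
      calc (Pool.Agent.X47.DS.prog a v N).ncard ≤ (A : Set G).ncard :=
            Set.ncard_le_ncard h3 (Finset.finite_toSet A)
        _ = A.card := Set.ncard_coe_finset A
    have h10 : (2 : ℝ) ^ r ≤ kap A ^ (13 : ℝ) := by
      have e1 : (2 : ℝ) ^ r = Real.exp (r * Real.log 2) := by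
        rw [mul_comm, Real.exp_mul, Real.exp_log (by norm_num), Real.rpow_natCast]
      have e2 : kap A ^ (13 : ℝ) = Real.exp (13 * Real.log (kap A)) := by
        rw [Real.rpow_def_of_pos hk0, mul_comm]
      rw [e1, e2, Real.exp_le_exp]
      have h11 : Real.log 2 ≤ 1 := by
        have := Real.log_two_lt_d9
        linarith
      have h12 : (0 : ℝ) ≤ r := Nat.cast_nonneg _
      calc (r : ℝ) * Real.log 2 ≤ r * 1 := mul_le_mul_of_nonneg_left h11 h12
        _ ≤ _ := by rw [mul_one]; exact h1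
    calc ((∏ i, (2 * N i - 1) : ℕ) : ℝ) ≤ ((2 ^ r * ∏ i, N i : ℕ) : ℝ) := Nat.cast_le.2 h8
      _ = 2 ^ r * ((∏ i, N i : ℕ) : ℝ) := by push_cast; ring
      _ ≤ kap A ^ (13 : ℝ) * A.card :=
          mul_le_mul h10 (Nat.cast_le.2 h9) (Nat.cast_nonneg _) (by positivity)
  · calc ((T.image (fun t => t - ∑ i, (N i - 1) • v i)).card : ℝ) ≤ T.card :=
          Nat.cast_le.2 Finset.card_image_le
      _ ≤ kap A ^ 5 := h5
      _ = kap A ^ (5 : ℝ) := by
          rw [← Real.rpow_natCast]
          norm_num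
      _ ≤ kap A ^ (13 : ℝ) := Real.rpow_le_rpow_of_exponent_le hk (by norm_num)
  · intro z hz
    obtain ⟨t, ht, p, ⟨n1, hn1, rfl⟩, q, ⟨n2, hn2, rfl⟩, rfl⟩ := h6 z hz
    refine ⟨t - ∑ i, (N i - 1) • v i, Finset.mem_image.2 ⟨t, ht, rfl⟩,
      fun i => n1 i + (N i - 1 - n2 i), fun i => ?_, ?_⟩
    · have := hn1 i
      have := hn2 i
      simp only
      omega
    · have e1 : ∀ i, (n1 i + (N i - 1 - n2 i)) • v i = n1 i • v i + ((N i - 1) • v i - n2 i • v i) := by
        intro i
        have h7 := hn2 i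
        have h8 : (N i - 1) • v i = (N i - 1 - n2 i) • v i + n2 i • v i := by
          rw [← add_smul]
          congr 1
          omega
        rw [add_smul, h8, add_sub_cancel_right]
      simp_rw [e1]
      rw [Finset.sum_add_distrib, Finset.sum_sub_distrib]
      abel

/-- **Closure under products.** -/
theorem closure {ι : Type*} [Fintype ι] [DecidableEq ι] {G : ι → Type*} [∀ i, AddCommGroup (G i)]
    [∀ i, DecidableEq (G i)] {Z : Type*} [AddCommGroup Z] [DecidableEq Z]
    (A : ∀ i, Finset (G i)) {C : ℝ} (hA : ∀ i, Good C (A i))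
    (π : (∀ i, G i) →+ Z) (c : Z)
    (hπ : Set.InjOn π (↑(Fintype.piFinset A + Fintype.piFinset A) : Set (∀ i, G i))) :
    (kap ((Fintype.piFinset A).image fun x => c + π x) = ∏ i, kap (A i)) ∧
    ∃ (d : ℕ) (v : Fin d → Z) (N : Fin d → ℕ) (T : Finset Z),
      (d : ℝ) ≤ C * Real.log (kap ((Fintype.piFinset A).image fun x => c + π x)) ∧
      (∀ i, 1 ≤ N i) ∧
      ((∏ i, N i : ℕ) : ℝ) ≤ kap ((Fintype.piFinset A).image fun x => c + π x) ^ C *
        ((Fintype.piFinset A).image fun x => c + π x).card ∧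
      (T.card : ℝ) ≤ kap ((Fintype.piFinset A).image fun x => c + π x) ^ C ∧
      ∀ b ∈ (Fintype.piFinset A).image (fun x => c + π x), ∃ t ∈ T, ∃ n : Fin d → ℕ,
        (∀ i, n i < N i) ∧ b = t + ∑ i, n i • v i := by
  classical
  set P : Finset (∀ i, G i) := Fintype.piFinset A with hP
  set S : Finset Z := P.image fun x => c + π x with hS
  have hne : ∀ i, (A i).Nonempty := fun i => (hA i).1
  have hk1 : ∀ i, 1 ≤ kap (A i) := fun i => kap_ge_one (hne i)
  choose d v N T hd hN hvol hT hcov using fun i => (hA i).2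
  have hPne : P.Nonempty := by
    rw [hP, Fintype.piFinset_nonempty]
    exact hne
  have hSne : S.Nonempty := hPne.image _
  have hPS : (P + P).card = ∏ i, (A i + A i).card := by
    rw [hP, ← Fintype.piFinset_add, Fintype.card_piFinset]
  have hSS : (S + S).card = (P + P).card := by
    have e : S + S = (P + P).image (fun x => (c + c) + π x) := by
      ext z
      simp only [hS, Finset.mem_add, Finset.mem_image]
      constructor
      · rintro ⟨_, ⟨x, hx, rfl⟩, _, ⟨y, hy, rfl⟩, rfl⟩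
        exact ⟨x + y, ⟨x, hx, y, hy, rfl⟩, by rw [map_add]; abel⟩
      · rintro ⟨_, ⟨x, hx, y, hy, rfl⟩, rfl⟩
        exact ⟨c + π x, ⟨x, hx, rfl⟩, c + π y, ⟨y, hy, rfl⟩, by rw [map_add]; abel⟩
    rw [e, Finset.card_image_of_injOn]
    intro x hx y hy hxy
    exact hπ hx hy (add_left_cancel hxy)
  have hSP : S.card = P.card := by
    rw [hS, Finset.card_image_of_injOn]
    obtain ⟨z, hz⟩ := hPne
    intro x hx y hy hxy
    have h1 : π (x + z) = π (y + z) := by
      rw [map_add, map_add, add_left_cancel hxy]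
    exact add_right_cancel (hπ (Finset.add_mem_add hx hz) (Finset.add_mem_add hy hz) h1)
  have hPcard : (P.card : ℝ) = ∏ i, ((A i).card : ℝ) := by
    rw [hP, Fintype.card_piFinset]
    push_cast
    rfl
  have hkS : kap S = ∏ i, kap (A i) := by
    unfold kap
    rw [hSS, hPS, hSP, hPcard, Finset.prod_div_distrib]
    push_cast
    rfl
  refine ⟨hkS, ?_⟩
  rw [hkS]
  have hprod1 : 1 ≤ ∏ i, kap (A i) := by
    rw [← hkS]
    exact kap_ge_one hSne
  set σ := Σ i, Fin (d i) with hσ
  set e : Fin (Fintype.card σ) ≃ σ := (Fintype.equivFin σ).symm with he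
  refine ⟨Fintype.card σ, fun j => π (Pi.single (e j).1 (v (e j).1 (e j).2)),
    fun j => N (e j).1 (e j).2, (Fintype.piFinset T).image fun t => c + π t, ?_, ?_, ?_, ?_, ?_⟩
  · have h0 : Fintype.card (Σ i, Fin (d i)) = ∑ i, d i := by
      rw [Fintype.card_sigma]
      simp
    have h1 : (Fintype.card σ : ℝ) = ∑ i, (d i : ℝ) := by exact_mod_cast h0
    rw [h1]
    calc ∑ i, (d i : ℝ) ≤ ∑ i, C * Real.log (kap (A i)) := Finset.sum_le_sum fun i _ => hd i
      _ = C * Real.log (∏ i, kap (A i)) := by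
          rw [← Finset.mul_sum, Real.log_prod (fun i _ => by have := hk1 i; linarith)]
  · intro j
    exact hN _ _
  · have h1 : ∏ j, N (e j).1 (e j).2 = ∏ i, ∏ l, N i l := by
      rw [e.prod_comp (fun s : σ => N s.1 s.2), Fintype.prod_sigma]
    rw [h1, hSP, hPcard]
    calc ((∏ i, ∏ l, N i l : ℕ) : ℝ) = ∏ i, ((∏ l, N i l : ℕ) : ℝ) := by push_cast; rfl
      _ ≤ ∏ i, (kap (A i) ^ C * (A i).card) :=
          Finset.prod_le_prod (fun i _ => Nat.cast_nonneg _) fun i _ => hvol i
      _ = (∏ i, kap (A i)) ^ C * ∏ i, ((A i).card : ℝ) := by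
          rw [Finset.prod_mul_distrib,
            Real.finsetProd_rpow _ _ (fun i _ => by have := hk1 i; linarith) _]
  · have h1 : (((Fintype.piFinset T).image fun t => c + π t).card : ℝ) ≤ ∏ i, ((T i).card : ℝ) := by
      have : ((Fintype.piFinset T).image fun t => c + π t).card ≤ ∏ i, (T i).card := by
        rw [← Fintype.card_piFinset]
        exact Finset.card_image_le
      exact_mod_cast this
    refine h1.trans ?_
    calc ∏ i, ((T i).card : ℝ) ≤ ∏ i, kap (A i) ^ C :=
          Finset.prod_le_prod (fun i _ => Nat.cast_nonneg _) fun i _ => hT i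
      _ = (∏ i, kap (A i)) ^ C :=
          Real.finsetProd_rpow _ _ (fun i _ => by have := hk1 i; linarith) _
  · intro b hb
    obtain ⟨x, hx, rfl⟩ := Finset.mem_image.1 hb
    rw [hP, Fintype.mem_piFinset] at hx
    choose t ht n hn hxe using fun i => hcov i (x i) (hx i)
    refine ⟨c + π t, Finset.mem_image.2 ⟨t, Fintype.mem_piFinset.2 ht, rfl⟩,
      fun j => n (e j).1 (e j).2, fun j => hn _ _, ?_⟩
    have h1 : ∑ j, n (e j).1 (e j).2 • π (Pi.single (e j).1 (v (e j).1 (e j).2))
        = ∑ i, ∑ l, n i l • π (Pi.single i (v i l)) := by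
      rw [e.sum_comp (fun s : σ => n s.1 s.2 • π (Pi.single s.1 (v s.1 s.2))), Fintype.sum_sigma]
    have h2 : x = t + ∑ i, ∑ l, n i l • (Pi.single i (v i l) : ∀ i, G i) := by
      funext i
      rw [hxe i, Pi.add_apply, Finset.sum_apply]
      congr 1
      rw [Finset.sum_eq_single i]
      · rw [Finset.sum_apply]
        apply Finset.sum_congr rfl
        intro l _
        rw [Pi.smul_apply, Pi.single_eq_same]
      · intro i' _ hi'
        rw [Finset.sum_apply]
        apply Finset.sum_eq_zero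
        intro l _
        rw [Pi.smul_apply, Pi.single_eq_of_ne (Ne.symm hi'), smul_zero]
      · intro h
        exact absurd (Finset.mem_univ i) h
    rw [h1]
    conv_lhs => rw [h2]
    rw [map_add, map_sum, add_assoc]
    congr 2
    apply Finset.sum_congr rfl
    intro i _
    rw [map_sum]
    apply Finset.sum_congr rfl
    intro l _
    rw [map_nsmul]

end Pool.Agent.X37.PS
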