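import Mathlib
import Pool.Agent.X37.PS.Gen
import Pool.Agent.H112R2.Final

set_option autoImplicit false

/-!
# Centred convex progressions and products
-/

namespace Pool.Agent.X37.PS

open Finset
open scoped Pointwise

/-- `B` is a centrally symmetric convex body -/
def Body {d : ℕ} (B : Set (Fin d → ℝ)) : Prop :=
  Convex ℝ B ∧ IsCompact B ∧ (interior B).Nonempty ∧ ∀ v ∈ B, -v ∈ B

/-- the conclusion with exponent `C`, centred convex progressions -/
def CGood {G : Type*} [AddCommGroup G] [DecidableEq G] (C : ℝ) (A : Finset G) : Prop :=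
  A.Nonempty ∧ ∃ (d : ℕ) (B : Set (Fin d → ℝ)) (ψ : (Fin d → ℤ) →+ G) (T : Finset G),
    (d : ℝ) ≤ C * Real.log (kap A) ∧ Body B ∧
    {x : Fin d → ℤ | (fun i => (x i : ℝ)) ∈ B}.ncard ≤ A.card ∧
    (T.card : ℝ) ≤ kap A ^ C ∧
    ∀ a ∈ A, ∃ t ∈ T, ∃ x : Fin d → ℤ, (fun i => (x i : ℝ)) ∈ B ∧ a = t + ψ x

lemma CGood.mono {G : Type*} [AddCommGroup G] [DecidableEq G] {C C' : ℝ} {A : Finset G}
    (h : CGood C A) (hC : C ≤ C') : CGood C' A := by
  obtain ⟨hA, d, B, ψ, T, h1, h2, h3, h4, h5⟩ := h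
  have hk := kap_ge_one hA
  have hp : kap A ^ C ≤ kap A ^ C' := Real.rpow_le_rpow_of_exponent_le hk hC
  exact ⟨hA, d, B, ψ, T, h1.trans (mul_le_mul_of_nonneg_right hC (Real.log_nonneg hk)), h2,
    h3, h4.trans hp, h5⟩

/-- bounded doubling in torsion-free groups -/
theorem cgood_of_doubling {G : Type*} [AddCommGroup G] [DecidableEq G]
    (htf : ∀ (n : ℕ) (x : G), n ≠ 0 → n • x = 0 → x = 0) {A : Finset G} (hA : A.Nonempty)
    {K₀ : ℝ} (hK₀ : ((A + A).card : ℝ) ≤ K₀ * A.card) : CGood (ex K₀) A := by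
  have hk1 := kap_ge_one hA
  have hkK : kap A ≤ K₀ := by
    unfold kap
    rwa [div_le_iff₀ (card_pos_real hA)]
  have hlog : 0 ≤ Real.log (kap A) := Real.log_nonneg hk1
  have hex := ex_mono hk1 hkK
  have hex1 := ex_nonneg hk1
  have h900 : 900 ≤ ex K₀ := by
    unfold ex
    have hK1 : 1 ≤ K₀ := hk1.trans hkK
    have h2 := log_two_ge hK1
    have h3 : 0 ≤ Real.log (1 + Real.log (2 * K₀)) := Real.log_nonneg (by linarith)
    linarith
  refine ⟨hA, ?_⟩
  rcases Nat.lt_or_ge A.card 2 with h | h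
  · obtain ⟨a, ha⟩ := Finset.card_eq_one.1 (by have := hA.card_pos; omega : A.card = 1)
    refine ⟨0, Set.univ, 0, {a}, ?_, ⟨convex_univ, isCompact_univ, ?_, fun _ _ => Set.mem_univ _⟩,
      ?_, ?_, ?_⟩
    · rw [Nat.cast_zero]
      exact mul_nonneg (by linarith) hlog
    · rw [interior_univ]
      exact Set.univ_nonempty
    · have : {x : Fin 0 → ℤ | (fun i => (x i : ℝ)) ∈ (Set.univ : Set (Fin 0 → ℝ))} = {0} := by
        ext x
        simp only [Set.mem_univ, Set.mem_singleton_iff]
        exact ⟨fun _ => Subsingleton.elim _ _, fun _ => trivial⟩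
      rw [this, Set.ncard_singleton]
      exact hA.card_pos
    · rw [Finset.card_singleton, Nat.cast_one]
      exact Real.one_le_rpow hk1 (hex1.trans hex)
    · intro b hb
      rw [ha, Finset.mem_singleton] at hb
      exact ⟨a, Finset.mem_singleton_self a, 0, Set.mem_univ _, by simp [hb]⟩
  · have hk32 : 3 / 2 ≤ kap A := by
      have h1 := doubling_ge htf h
      rw [kap_eq hA] at h1
      exact le_of_mul_le_mul_right h1 (card_pos_real hA)
    have hk0 : 0 < kap A := by linarith
    have h2k : 2 * kap A ≤ kap A ^ (3 : ℕ) := by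
      nlinarith [sq_nonneg (kap A - 3 / 2), mul_pos hk0 hk0]
    obtain ⟨d, B, ψ, H, T, hd, hB, hH, hvol, hT, hcov⟩ := H112.near_pfr hA (kap_eq hA).le
    have hHbot : ∀ h ∈ H, h = 0 := by
      intro h hh
      have h1 : Nat.card H • (⟨h, hh⟩ : H) = 0 := card_nsmul_eq_zero'
      have h2 : Nat.card H • h = 0 := by
        have h3 := congrArg H.subtype h1
        rw [map_nsmul, map_zero] at h3
        exact h3
      exact htf _ _ Nat.card_pos.ne' h2
    have hHcard : Nat.card H = 1 := by
      rw [Nat.card_eq_one_iff_unique]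
      refine ⟨⟨fun a b => Subtype.ext ?_⟩, ⟨0⟩⟩
      rw [hHbot a.1 a.2, hHbot b.1 b.2]
    have hlog2 : Real.log (2 * kap A) ≤ 3 * Real.log (kap A) := by
      have h1 := Real.log_le_log (by linarith) h2k
      rwa [Real.log_pow, Nat.cast_ofNat] at h1
    refine ⟨d, B, ψ, T, ?_, ⟨hB.1, hB.2.1, hB.2.2.1, hB.2.2.2⟩, ?_, ?_, ?_⟩
    · have h4 : 900 * Real.log (kap A) ≤ ex K₀ * Real.log (kap A) :=
        mul_le_mul_of_nonneg_right h900 hlog
      linarith
    · rw [hHcard, mul_one] at hvol
      exact hvol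
    · refine hT.trans ?_
      set e : ℝ := 13000 * (1 + Real.log (1 + Real.log (2 * kap A))) with he
      have he0 : 0 ≤ e := by
        have h2 := log_two_ge hk1
        have h3 : 0 ≤ Real.log (1 + Real.log (2 * kap A)) := Real.log_nonneg (by linarith)
        positivity
      have he3 : 3 * e ≤ ex (kap A) := by
        unfold ex
        rw [he]
        have h2 := log_two_ge hk1
        have h3 : 0 ≤ Real.log (1 + Real.log (2 * kap A)) := Real.log_nonneg (by linarith)
        linarith
      calc (2 * kap A) ^ e ≤ (kap A ^ (3 : ℕ)) ^ e := Real.rpow_le_rpow (by linarith) h2k he0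
        _ = kap A ^ (3 * e) := by
            rw [← Real.rpow_natCast, ← Real.rpow_mul hk0.le]
            norm_num
        _ ≤ kap A ^ ex K₀ := Real.rpow_le_rpow_of_exponent_le hk1 (he3.trans hex)
    · intro a ha
      obtain ⟨t, ht, x, hx, h, hh, e⟩ := hcov a ha
      exact ⟨t, ht, x, hx, by rw [e, hHbot h hh, add_zero]⟩

/-- the product of bodies -/
theorem body_prod {ι : Type*} [Fintype ι] [DecidableEq ι] (d : ι → ℕ)
    (B : ∀ i, Set (Fin (d i) → ℝ)) (hB : ∀ i, Body (B i)) {D : ℕ} (e : Fin D ≃ Σ i, Fin (d i)) :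
    Body {x : Fin D → ℝ | ∀ i, (fun l => x (e.symm ⟨i, l⟩)) ∈ B i} ∧
    {x : Fin D → ℤ | (fun j => (x j : ℝ)) ∈
      {x : Fin D → ℝ | ∀ i, (fun l => x (e.symm ⟨i, l⟩)) ∈ B i}}.ncard =
      ∏ i, {x : Fin (d i) → ℤ | (fun l => (x l : ℝ)) ∈ B i}.ncard := by
  refine ⟨⟨?_, ?_, ?_, ?_⟩, ?_⟩
  · intro x hx y hy a b ha hb hab i
    exact (hB i).1 (hx i) (hy i) ha hb hab
  · have h1 : IsCompact (Set.pi Set.univ B) := isCompact_univ_pi fun i => (hB i).2.1
    have h2 : Continuous (fun (y : ∀ i, Fin (d i) → ℝ) (j : Fin D) => y (e j).1 (e j).2) := by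
      fun_prop
    have h3 : {x : Fin D → ℝ | ∀ i, (fun l => x (e.symm ⟨i, l⟩)) ∈ B i} =
        (fun (y : ∀ i, Fin (d i) → ℝ) (j : Fin D) => y (e j).1 (e j).2) '' (Set.pi Set.univ B) := by
      ext x
      constructor
      · intro hx
        refine ⟨fun i l => x (e.symm ⟨i, l⟩), fun i _ => hx i, ?_⟩
        funext j
        show x (e.symm ⟨(e j).1, (e j).2⟩) = x j
        rw [Sigma.eta, e.symm_apply_apply]
      · rintro ⟨y, hy, rfl⟩ i
        have : (fun l => y (e (e.symm ⟨i, l⟩)).1 (e (e.symm ⟨i, l⟩)).2) = y i := by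
          funext l
          rw [e.apply_symm_apply]
        show (fun l => y (e (e.symm ⟨i, l⟩)).1 (e (e.symm ⟨i, l⟩)).2) ∈ B i
        rw [this]
        exact hy i (Set.mem_univ i)
    rw [h3]
    exact h1.image h2
  · choose z hz using fun i => (hB i).2.2.1
    have hopen : IsOpen {x : Fin D → ℝ | ∀ i, (fun l => x (e.symm ⟨i, l⟩)) ∈ interior (B i)} := by
      have : {x : Fin D → ℝ | ∀ i, (fun l => x (e.symm ⟨i, l⟩)) ∈ interior (B i)} =
          ⋂ i, (fun (x : Fin D → ℝ) (l : Fin (d i)) => x (e.symm ⟨i, l⟩)) ⁻¹' interior (B i) := by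
        ext x
        simp only [Set.mem_iInter, Set.mem_preimage]
        exact Iff.rfl
      rw [this]
      refine isOpen_iInter_of_finite fun i => isOpen_interior.preimage ?_
      fun_prop
    refine ⟨fun j => z (e j).1 (e j).2, ?_⟩
    refine interior_maximal ?_ hopen ?_
    · intro x hx i
      exact interior_subset (hx i)
    · intro i
      have : (fun l => z (e (e.symm ⟨i, l⟩)).1 (e (e.symm ⟨i, l⟩)).2) = z i := by
        funext l
        rw [e.apply_symm_apply]
      show (fun l => z (e (e.symm ⟨i, l⟩)).1 (e (e.symm ⟨i, l⟩)).2) ∈ interior (B i)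
      rw [this]
      exact hz i
  · intro x hx i
    exact (hB i).2.2.2 _ (hx i)
  · have h1 : Nat.card {x : Fin D → ℤ | (fun j => (x j : ℝ)) ∈
      {x : Fin D → ℝ | ∀ i, (fun l => x (e.symm ⟨i, l⟩)) ∈ B i}} =
        Nat.card (∀ i, {x : Fin (d i) → ℤ | (fun l => (x l : ℝ)) ∈ B i}) := by
      apply Nat.card_congr
      exact
        { toFun := fun x i => ⟨fun l => x.1 (e.symm ⟨i, l⟩), x.2 i⟩
          invFun := fun y => ⟨fun j => (y (e j).1).1 (e j).2, fun i => by
            have : (fun l => (((y (e (e.symm ⟨i, l⟩)).1).1 (e (e.symm ⟨i, l⟩)).2 : ℤ) : ℝ)) =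
                fun l => (((y i).1 l : ℤ) : ℝ) := by
              funext l
              rw [e.apply_symm_apply]
            show (fun l => (((y (e (e.symm ⟨i, l⟩)).1).1 (e (e.symm ⟨i, l⟩)).2 : ℤ) : ℝ)) ∈ B i
            rw [this]
            exact (y i).2⟩
          left_inv := by
            intro x
            apply Subtype.ext
            funext j
            show x.1 (e.symm ⟨(e j).1, (e j).2⟩) = x.1 j
            rw [Sigma.eta, e.symm_apply_apply]
          right_inv := by
            intro y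
            funext i
            apply Subtype.ext
            funext l
            show (y (e (e.symm ⟨i, l⟩)).1).1 (e (e.symm ⟨i, l⟩)).2 = (y i).1 l
            rw [e.apply_symm_apply] }
    rw [← Nat.card_coe_set_eq, h1, Nat.card_pi]
    exact Finset.prod_congr rfl fun i _ => Nat.card_coe_set_eq _

/-- **Closure under products, convex progressions.** -/
theorem cclosure {ι : Type*} [Fintype ι] [DecidableEq ι] {G : ι → Type*} [∀ i, AddCommGroup (G i)]
    [∀ i, DecidableEq (G i)] {Z : Type*} [AddCommGroup Z] [DecidableEq Z]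
    (A : ∀ i, Finset (G i)) {C : ℝ} (hA : ∀ i, CGood C (A i))
    (π : (∀ i, G i) →+ Z) (c : Z)
    (hπ : Set.InjOn π (↑(Fintype.piFinset A + Fintype.piFinset A) : Set (∀ i, G i))) :
    CGood C ((Fintype.piFinset A).image fun x => c + π x) := by
  classical
  set P : Finset (∀ i, G i) := Fintype.piFinset A with hP
  set S : Finset Z := P.image fun x => c + π x with hS
  have hne : ∀ i, (A i).Nonempty := fun i => (hA i).1
  have hk1 : ∀ i, 1 ≤ kap (A i) := fun i => kap_ge_one (hne i)
  choose d B ψ T hd hB hvol hT hcov using fun i => (hA i).2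
  have hPne : P.Nonempty := by
    rw [hP, Fintype.piFinset_nonempty]
    exact hne
  have hSne : S.Nonempty := hPne.image _
  have hPS : (P + P).card = ∏ i, (A i + A i).card := by
    rw [hP, ← Fintype.piFinset_add, Fintype.card_piFinset]
  have hSS : (S + S).card = (P + P).card := by
    have e : S + S = (P + P).image (fun x => (c + c) + π x) := by
      ext z
      simp only [hS, Finset.mem_add, Finset.mem_image]
      constructor
      · rintro ⟨_, ⟨x, hx, rfl⟩, _, ⟨y, hy, rfl⟩, rfl⟩
        exact ⟨x + y, ⟨x, hx, y, hy, rfl⟩, by rw [map_add]; abel⟩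
      · rintro ⟨_, ⟨x, hx, y, hy, rfl⟩, rfl⟩
        exact ⟨c + π x, ⟨x, hx, rfl⟩, c + π y, ⟨y, hy, rfl⟩, by rw [map_add]; abel⟩
    rw [e, Finset.card_image_of_injOn]
    intro x hx y hy hxy
    exact hπ hx hy (add_left_cancel hxy)
  have hSP : S.card = P.card := by
    rw [hS, Finset.card_image_of_injOn]
    obtain ⟨z, hz⟩ := hPne
    intro x hx y hy hxy
    have h1 : π (x + z) = π (y + z) := by
      rw [map_add, map_add, add_left_cancel hxy]
    exact add_right_cancel (hπ (Finset.add_mem_add hx hz) (Finset.add_mem_add hy hz) h1)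
  have hPcard : P.card = ∏ i, (A i).card := by
    rw [hP, Fintype.card_piFinset]
  have hkS : kap S = ∏ i, kap (A i) := by
    unfold kap
    rw [hSS, hPS, hSP, hPcard, Finset.prod_div_distrib]
    push_cast
    rfl
  set σ := Σ i, Fin (d i) with hσ
  set e : Fin (Fintype.card σ) ≃ σ := (Fintype.equivFin σ).symm with he
  obtain ⟨hbody, hcount⟩ := body_prod d B hB e
  let Ψ : (Fin (Fintype.card σ) → ℤ) →+ Z :=
    { toFun := fun x => π fun i => ψ i fun l => x (e.symm ⟨i, l⟩)
      map_zero' := by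
        have : (fun i => ψ i fun l : Fin (d i) =>
            (0 : Fin (Fintype.card σ) → ℤ) (e.symm ⟨i, l⟩)) = 0 := by
          funext i
          exact map_zero (ψ i)
        rw [this, map_zero]
      map_add' := by
        intro x y
        rw [← map_add]
        congr 1
        funext i
        rw [Pi.add_apply, ← map_add]
        rfl }
  refine ⟨hSne, Fintype.card σ, _, Ψ, (Fintype.piFinset T).image fun t => c + π t, ?_, hbody,
    ?_, ?_, ?_⟩
  · have h0 : Fintype.card (Σ i, Fin (d i)) = ∑ i, d i := by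
      rw [Fintype.card_sigma]
      simp
    have h1 : (Fintype.card σ : ℝ) = ∑ i, (d i : ℝ) := by exact_mod_cast h0
    rw [h1, hkS]
    calc ∑ i, (d i : ℝ) ≤ ∑ i, C * Real.log (kap (A i)) := Finset.sum_le_sum fun i _ => hd i
      _ = C * Real.log (∏ i, kap (A i)) := by
          rw [← Finset.mul_sum, Real.log_prod (fun i _ => by have := hk1 i; linarith)]
  · rw [hcount, hSP, hPcard]
    exact Finset.prod_le_prod' fun i _ => hvol i
  · have h1 : (((Fintype.piFinset T).image fun t => c + π t).card : ℝ) ≤ ∏ i, ((T i).card : ℝ) := by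
      have : ((Fintype.piFinset T).image fun t => c + π t).card ≤ ∏ i, (T i).card := by
        rw [← Fintype.card_piFinset]
        exact Finset.card_image_le
      exact_mod_cast this
    refine h1.trans ?_
    rw [hkS]
    calc ∏ i, ((T i).card : ℝ) ≤ ∏ i, kap (A i) ^ C :=
          Finset.prod_le_prod (fun i _ => Nat.cast_nonneg _) fun i _ => hT i
      _ = (∏ i, kap (A i)) ^ C :=
          Real.finsetProd_rpow _ _ (fun i _ => by have := hk1 i; linarith) _
  · intro b hb
    obtain ⟨x, hx, rfl⟩ := Finset.mem_image.1 hb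
    rw [hP, Fintype.mem_piFinset] at hx
    choose t ht y hy hxe using fun i => hcov i (x i) (hx i)
    refine ⟨c + π t, Finset.mem_image.2 ⟨t, Fintype.mem_piFinset.2 ht, rfl⟩,
      fun j => y (e j).1 (e j).2, ?_, ?_⟩
    · intro i
      have : (fun l => (((y (e (e.symm ⟨i, l⟩)).1) (e (e.symm ⟨i, l⟩)).2 : ℤ) : ℝ)) =
          fun l => ((y i l : ℤ) : ℝ) := by
        funext l
        rw [e.apply_symm_apply]
      show (fun l => (((y (e (e.symm ⟨i, l⟩)).1) (e (e.symm ⟨i, l⟩)).2 : ℤ) : ℝ)) ∈ B i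
      rw [this]
      exact hy i
    · have h1 : (fun i => ψ i fun l : Fin (d i) =>
          y (e (e.symm ⟨i, l⟩)).1 (e (e.symm ⟨i, l⟩)).2) = fun i => ψ i (y i) := by
        funext i
        congr 1
        funext l
        rw [e.apply_symm_apply]
      have h2 : x = t + fun i => ψ i (y i) := by
        funext i
        rw [Pi.add_apply]
        exact hxe i
      show c + π x = c + π t + π (fun i => ψ i fun l : Fin (d i) =>
          y (e (e.symm ⟨i, l⟩)).1 (e (e.symm ⟨i, l⟩)).2)
      rw [h1, add_assoc, ← map_add, ← h2]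

end Pool.Agent.X37.PS
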