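import Mathlib
import Pool.Agent.X37.PS.Conv

set_option autoImplicit false

/-!
# Centred convex progressions and images of down-sets
-/

namespace Pool.Agent.X37.PS

open Finset
open scoped Pointwise

/-- a box is a body, and its lattice points -/
theorem body_box {r : ℕ} (L : Fin r → ℕ) :
    Body {x : Fin r → ℝ | ∀ i, |x i| ≤ (L i : ℝ) + 1 / 2} ∧
    {x : Fin r → ℤ | (fun j => (x j : ℝ)) ∈
      {x : Fin r → ℝ | ∀ i, |x i| ≤ (L i : ℝ) + 1 / 2}}.ncard = ∏ i, (2 * L i + 1) ∧
    (∀ x : Fin r → ℤ, (∀ i, |x i| ≤ L i) → (fun j => (x j : ℝ)) ∈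
      {x : Fin r → ℝ | ∀ i, |x i| ≤ (L i : ℝ) + 1 / 2}) := by
  have key : ∀ (n : ℤ) (l : ℕ), |(n : ℝ)| ≤ (l : ℝ) + 1 / 2 ↔ |n| ≤ l := by
    intro n l
    constructor
    · intro h
      have h1 : ((|n| : ℤ) : ℝ) < ((l + 1 : ℤ) : ℝ) := by
        push_cast
        linarith
      have h2 : |n| < (l : ℤ) + 1 := by exact_mod_cast h1
      omega
    · intro h
      have h1 : ((|n| : ℤ) : ℝ) ≤ ((l : ℤ) : ℝ) := by exact_mod_cast h
      push_cast at h1
      linarith
  have hset : {x : Fin r → ℝ | ∀ i, |x i| ≤ (L i : ℝ) + 1 / 2} =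
      Set.Icc (fun i => -((L i : ℝ) + 1 / 2)) (fun i => (L i : ℝ) + 1 / 2) := by
    ext x
    simp only [Set.mem_Icc, Pi.le_def, abs_le]
    constructor
    · intro h
      exact ⟨fun i => (h i).1, fun i => (h i).2⟩
    · intro h i
      exact ⟨h.1 i, h.2 i⟩
  refine ⟨⟨?_, ?_, ?_, ?_⟩, ?_, ?_⟩
  · rw [hset]
    exact convex_Icc _ _
  · rw [hset]
    exact isCompact_Icc
  · refine ⟨0, interior_maximal (s := {x : Fin r → ℝ | ∀ i, |x i| ≤ (L i : ℝ) + 1 / 2})
      (t := Set.pi Set.univ fun i => Set.Ioo (-((L i : ℝ) + 1 / 2)) ((L i : ℝ) + 1 / 2)) ?_ ?_ ?_⟩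
    · intro x hx i
      have := hx i (Set.mem_univ i)
      exact abs_le.2 ⟨this.1.le, this.2.le⟩
    · exact isOpen_set_pi Set.finite_univ fun i _ => isOpen_Ioo
    · intro i _
      have : (0 : ℝ) ≤ L i := Nat.cast_nonneg _
      constructor
      · show -((L i : ℝ) + 1 / 2) < 0
        linarith
      · show (0 : ℝ) < (L i : ℝ) + 1 / 2
        linarith
  · intro x hx i
    rw [Pi.neg_apply, abs_neg]
    exact hx i
  · have h1 : {x : Fin r → ℤ | (fun j => (x j : ℝ)) ∈
        {x : Fin r → ℝ | ∀ i, |x i| ≤ (L i : ℝ) + 1 / 2}} =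
        ((Fintype.piFinset fun i => Finset.Icc (-(L i : ℤ)) (L i) : Finset (Fin r → ℤ)) :
          Set (Fin r → ℤ)) := by
      ext x
      simp only [Finset.mem_coe, Fintype.mem_piFinset, Finset.mem_Icc]
      constructor
      · intro h i
        exact abs_le.1 ((key _ _).1 (h i))
      · intro h i
        exact (key _ _).2 (abs_le.2 (h i))
    rw [h1, Set.ncard_coe_finset, Fintype.card_piFinset]
    refine Finset.prod_congr rfl fun i _ => ?_
    rw [Int.card_Icc]
    omega
  · intro x hx i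
    exact (key _ _).2 (hx i)

/-- homomorphic images of down-sets of any dimension -/
theorem cgood_of_down {G : Type*} [AddCommGroup G] [DecidableEq G] (n : ℕ)
    (D : Finset (Fin n → ℕ)) (hD : ∀ x ∈ D, ∀ y, y ≤ x → y ∈ D) (hne : D.Nonempty)
    (θ : (Fin n → ℤ) →+ G) (g : G)
    (hθ : Set.InjOn (fun x => θ (Pool.Agent.X47.DS.cst x)) (D + D : Finset (Fin n → ℕ)))
    {A : Finset G} (hA : A = D.image (fun x => g + θ (Pool.Agent.X47.DS.cst x))) : CGood 20 A := by
  classical
  have hAne : A.Nonempty := by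
    rw [hA]
    exact hne.image _
  have hk := kap_ge_one hAne
  have hk0 : 0 < kap A := by linarith
  obtain ⟨r, a, v, N, T, h1, h2, h3, h4, h5, h6⟩ :=
    Pool.Agent.X47.DS.pfr_prog n D hD hne θ g hθ (kap A) A hA (kap_eq hAne).le
  have hlog : 0 ≤ Real.log (kap A) := Real.log_nonneg hk
  have hpos : ∀ i, 1 ≤ N i := by
    have h7 : (Pool.Agent.X47.DS.prog a v N).ncard ≠ 0 := by
      intro h0
      rw [h0, Nat.cast_zero, mul_zero] at h4
      have := card_pos_real hAne
      linarith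
    rw [h2] at h7
    intro i
    exact Nat.one_le_iff_ne_zero.2 (Finset.prod_ne_zero_iff.1 h7 i (Finset.mem_univ i))
  set L : Fin r → ℕ := fun i => (N i - 1) / 2 with hL
  obtain ⟨hb1, hb2, hb3⟩ := body_box L
  let ψ : (Fin r → ℤ) →+ G :=
    { toFun := fun x => ∑ i, x i • v i
      map_zero' := by simp
      map_add' := by
        intro x y
        simp only [Pi.add_apply, add_smul, Finset.sum_add_distrib] }
  set U : Finset (Fin r → ℤ) := Fintype.piFinset fun i => Finset.Icc (-1 : ℤ) 1 with hU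
  have hUcard : U.card = 3 ^ r := by
    rw [hU, Fintype.card_piFinset]
    simp
  refine ⟨hAne, r, _, ψ, (T ×ˢ U).image (fun p => p.1 + ψ fun i => p.2 i * (2 * L i + 1)), ?_, hb1,
    ?_, ?_, ?_⟩
  · linarith
  · rw [hb2]
    have h9 : ∏ i, N i ≤ A.card := by
      rw [← h2]
      calc (Pool.Agent.X47.DS.prog a v N).ncard ≤ (A : Set G).ncard :=
            Set.ncard_le_ncard h3 (Finset.finite_toSet A)
        _ = A.card := Set.ncard_coe_finset A
    refine (Finset.prod_le_prod' fun i _ => ?_).trans h9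
    have := hpos i
    show 2 * ((N i - 1) / 2) + 1 ≤ N i
    omega
  · have e3 : (3 : ℝ) ^ r ≤ kap A ^ (15 : ℝ) := by
      have e1 : (3 : ℝ) ^ r = Real.exp (r * Real.log 3) := by
        rw [mul_comm, Real.exp_mul, Real.exp_log (by norm_num), Real.rpow_natCast]
      have e2 : kap A ^ (15 : ℝ) = Real.exp (15 * Real.log (kap A)) := by
        rw [Real.rpow_def_of_pos hk0, mul_comm]
      rw [e1, e2, Real.exp_le_exp]
      have h11 : Real.log 3 ≤ 15 / 13 := by
        have h12 : Real.log 3 ≤ 3 / Real.exp 1 := by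
          have := Real.add_one_le_exp (Real.log 3 - 1)
          have h13 : Real.exp (Real.log 3 - 1) = 3 / Real.exp 1 := by
            rw [Real.exp_sub, Real.exp_log (by norm_num)]
          rw [h13] at this
          linarith
        have h14 : (2.7182818283 : ℝ) < Real.exp 1 := Real.exp_one_gt_d9
        have h15 : 3 / Real.exp 1 ≤ 3 / 2.7182818283 :=
          div_le_div_of_nonneg_left (by norm_num) (by norm_num) h14.le
        have h16 : (3 : ℝ) / 2.7182818283 ≤ 15 / 13 := by norm_num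
        linarith
      have h12 : (0 : ℝ) ≤ r := Nat.cast_nonneg _
      calc (r : ℝ) * Real.log 3 ≤ r * (15 / 13) := mul_le_mul_of_nonneg_left h11 h12
        _ ≤ 13 * Real.log (kap A) * (15 / 13) := mul_le_mul_of_nonneg_right h1 (by norm_num)
        _ = 15 * Real.log (kap A) := by ring
    calc (((T ×ˢ U).image (fun p => p.1 + ψ fun i => p.2 i * (2 * L i + 1))).card : ℝ)
        ≤ ((T ×ˢ U).card : ℝ) := Nat.cast_le.2 Finset.card_image_le
      _ = T.card * 3 ^ r := by
          rw [Finset.card_product, hUcard]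
          push_cast
          ring
      _ ≤ kap A ^ 5 * kap A ^ (15 : ℝ) := mul_le_mul h5 e3 (by positivity) (by positivity)
      _ = kap A ^ (20 : ℝ) := by
          rw [← Real.rpow_natCast, ← Real.rpow_add hk0]
          norm_num
  · intro z hz
    obtain ⟨t, ht, p, ⟨n1, hn1, rfl⟩, q, ⟨n2, hn2, rfl⟩, rfl⟩ := h6 z hz
    have hex : ∀ i, ∃ s : ℤ, -1 ≤ s ∧ s ≤ 1 ∧
        |(n1 i : ℤ) - n2 i - s * (2 * L i + 1)| ≤ L i := by
      intro i
      have e1 := hn1 i
      have e2 := hn2 i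
      have e3 := hpos i
      have e4 : (L i : ℤ) = ((N i - 1) / 2 : ℕ) := rfl
      have e5 : (N i : ℤ) - 2 ≤ 2 * L i := by
        rw [e4]
        omega
      rcases lt_trichotomy ((n1 i : ℤ) - n2 i) 0 with h | h | h
      · by_cases h' : -(L i : ℤ) ≤ (n1 i : ℤ) - n2 i
        · exact ⟨0, by norm_num, by norm_num, abs_le.2 ⟨by linarith, by
            have : (0 : ℤ) ≤ L i := Int.natCast_nonneg _
            linarith⟩⟩
        · refine ⟨-1, le_rfl, by norm_num, abs_le.2 ⟨?_, ?_⟩⟩ <;> omega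
      · exact ⟨0, by norm_num, by norm_num, abs_le.2 ⟨by omega, by omega⟩⟩
      · by_cases h' : (n1 i : ℤ) - n2 i ≤ L i
        · exact ⟨0, by norm_num, by norm_num, abs_le.2 ⟨by
            have : (0 : ℤ) ≤ L i := Int.natCast_nonneg _
            linarith, by linarith⟩⟩
        · refine ⟨1, by norm_num, le_rfl, abs_le.2 ⟨?_, ?_⟩⟩ <;> omega
    choose s hs1 hs2 hs3 using hex
    refine ⟨t + ψ fun i => s i * (2 * L i + 1), ?_,
      fun i => (n1 i : ℤ) - n2 i - s i * (2 * L i + 1), hb3 _ hs3, ?_⟩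
    · refine Finset.mem_image.2 ⟨(t, s), Finset.mem_product.2 ⟨ht, ?_⟩, rfl⟩
      rw [hU, Fintype.mem_piFinset]
      intro i
      exact Finset.mem_Icc.2 ⟨hs1 i, hs2 i⟩
    · rw [add_assoc, ← map_add]
      have e1 : ((fun i => s i * (2 * (L i : ℤ) + 1)) +
          fun i => (n1 i : ℤ) - n2 i - s i * (2 * L i + 1)) = fun i => (n1 i : ℤ) - n2 i := by
        funext i
        rw [Pi.add_apply]
        ring
      rw [e1]
      congr 1
      show a + ∑ i, n1 i • v i - (a + ∑ i, n2 i • v i) = ∑ i, ((n1 i : ℤ) - n2 i) • v i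
      simp only [sub_smul, natCast_zsmul]
      rw [Finset.sum_sub_distrib]
      abel

end Pool.Agent.X37.PS
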